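import Pool.Agent.K3h58.LC.Seq
import Pool.Agent.Results.MP_3e612f_nt.NullExtensions

/-!
# The logarithmically averaged Sarnak conjecture for cocycles of convergence groups (helper58)

Let `(Y, S)` be an almost periodic system, for example a rotation of a compact abelian group, let `G` be a topological
group which acts on a compact metric space `Z` as a convergence group, for example the group of the isometries of a
proper hyperbolic space (of a tree, of a negatively curved manifold, of a Cayley graph of a hyperbolic group) on the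
boundary at infinity, a relatively hyperbolic group on its Bowditch boundary, or a Kleinian group on its limit set, and
let `φ : Y → G` be continuous. Nothing is assumed on the growth of the products `φ(S^(n-1) y) ⋯ φ(S y) φ(y)`. All points
of the skew product `T(y, z) = (S y, φ(y) z)` satisfy the conclusion of the logarithmically averaged Sarnak conjecture.

Proof. Let `A`, `B` be disjoint closed sets of `Y × Z`. If all four patterns of visits of the fibre over `y` to `A` and
`B` at the times `m`, `m'` are realised, then the element of `G` which leads from the time `m` to the time `m'` is in a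
compact set, which depends on `A` and `B` only: an element outside of this set maps one of the sets `A`, `B` into a
small ball, which does not meet both of them. If this holds for all pairs of `d` times then two of these elements and
the two base points are close to each other by compactness, if `d` is large, and then the pattern `A` at the first and
`B` at the second time is impossible. So the extension is null relative to its base, and the starting result
`NullExtensions` of helper296 applies.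
-/

set_option autoImplicit false
set_option linter.unusedSectionVars false

open Finset Filter Topology

namespace Pool.Agent.Results.MP_3e612f_nt.ConvergenceCocycles

open Classical in
/-- `E` has logarithmic density zero -/
def LogDensityZero (E : Set ℕ) : Prop := Tendsto
  (fun X : ℕ => (∑ n ∈ Icc 1 X, if n ∈ E then (1 : ℝ) / n else 0) / Real.log X) atTop (𝓝 0)

/-- `e(x) = exp(2 π i x)` -/
noncomputable def e (x : ℝ) : ℂ := Complex.exp (2 * Real.pi * x * Complex.I)

/-- the Möbius function -/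
def mu (n : ℕ) : ℤ := ArithmeticFunction.moebius n

/-- the Liouville function -/
def lam (n : ℕ) : ℤ := (-1) ^ ArithmeticFunction.cardFactors n

/-- The orbits of the points of `P` are almost periodic at each scale, uniformly in the point: for every continuous
function `c` and every `ε > 0` there is `J` such that at every large scale `N` and for each `y` in `P` there are
`J` frequencies `α_j` and coefficients `ρ_j(n)`, bounded by `J` and of total variation at most `J` on `[0, N]`, with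
`∑_{n < N} |c(Sⁿ y) - ∑_j ρ_j(n) e(α_j n)| ≤ ε N`; frequencies and coefficients may depend on `N` and `y`. -/
def AlmostPeriodic {Y : Type} [TopologicalSpace Y] (S : Y → Y) (P : Set Y) : Prop :=
  ∀ c : C(Y, ℂ), ∀ ε : ℝ, 0 < ε → ∃ J N₀ : ℕ, ∀ N : ℕ, N₀ ≤ N → ∀ y ∈ P, ∃ (ρ : Fin J → ℕ → ℂ) (α : Fin J → ℝ),
    (∀ j n, ‖ρ j n‖ ≤ J) ∧ (∀ j, ∑ n ∈ range N, ‖ρ j (n + 1) - ρ j n‖ ≤ J) ∧
      ∑ n ∈ range N, ‖c (S^[n] y) - ∑ j, ρ j n * e (α j * n)‖ ≤ ε * N

/-- the sequence `u(n) e(θ n) F(Tⁿ x)` -/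
noncomputable def seq {X : Type} (u : ℕ → ℤ) (θ : ℝ) (T : X → X) (F : X → ℂ) (x : X) (n : ℕ) : ℂ :=
  (u n : ℂ) * e (θ * n) * F (T^[n] x)

/-- The function `F` is disjoint from `u`, uniformly over the points `x` of `X` above `P` and the twists `θ`:
(1) `(1/N) ∑_{n ≤ N} u(n) e(θ n) F(Tⁿ x) → 0` for `N → ∞`, `N ∉ E`;
(2) the same in short intervals `[n, n + H)`, on average over `n < N ∉ E`, where for each interval the point may be
replaced by another point `x_n` of the fibre over `Sⁿ y`;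
(3) `(1/log N) ∑_{n ≤ N} u(n) e(θ n) F(Tⁿ x) / n → 0` for `N → ∞`. -/
def Disjoint' {X Y : Type} (E : Set ℕ) (u : ℕ → ℤ) (S : Y → Y) (P : Set Y) (T : X → X) (π : X → Y) (F : X → ℂ) :
    Prop :=
  ∀ ε : ℝ, 0 < ε →
    (∃ N₀ : ℕ, ∀ N ≥ N₀, N ∉ E → ∀ x, π x ∈ P → ∀ θ : ℝ, ‖∑ n ∈ Icc 1 N, seq u θ T F x n‖ ≤ ε * N) ∧
    (∃ H₀ : ℕ, ∀ H ≥ H₀, ∃ N₀ : ℕ, ∀ N ≥ N₀, N ∉ E → ∀ y ∈ P, ∀ x : ℕ → X, (∀ n, π (x n) = S^[n] y) → ∀ θ : ℝ,
      ∑ n ∈ range N, ‖∑ m ∈ range H, (u (n + m) : ℂ) * e (θ * (n + m : ℕ)) * F (T^[m] (x n))‖ ≤ ε * (H * N)) ∧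
    ∃ N₀ : ℕ, ∀ N ≥ N₀, ∀ x, π x ∈ P → ∀ θ : ℝ, ‖∑ n ∈ Icc 1 N, seq u θ T F x n / n‖ ≤ ε * Real.log N

/-- the conclusion of the logarithmically averaged Sarnak conjecture for the points above `P` -/
def LogSarnak {X Y : Type} (P : Set Y) (T : X → X) (π : X → Y) (F : X → ℂ) : Prop :=
  ∀ x, π x ∈ P → Tendsto (fun N : ℕ => (1 / (Real.log (N : ℝ) : ℂ)) *
    ∑ n ∈ Icc 1 N, F (T^[n] x) * ((ArithmeticFunction.moebius n : ℤ) : ℂ) / (n : ℂ)) atTop (𝓝 0)

/-- all conclusions -/
def Conclusion {X Y : Type} (E : Set ℕ) (S : Y → Y) (P : Set Y) (T : X → X) (π : X → Y) (F : X → ℂ) : Prop :=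
  LogSarnak P T π F ∧ Disjoint' E mu S P T π F ∧ Disjoint' E lam S P T π F

/-- The action of `G` on the compact metric space `Z` is a convergence action: outside of a compact subset of `G`, each
element maps the complement of some ball of radius `ε` into a ball of radius `ε`. -/
def Convergence (G Z : Type) [TopologicalSpace G] [SMul G Z] [MetricSpace Z] : Prop :=
  ∀ ε : ℝ, 0 < ε → ∃ K : Set G, IsCompact K ∧ ∀ g ∉ K, ∃ a r : Z, ∀ z, ε ≤ dist z r → dist (g • z) a < ε

/-- Convergence actions in the usual sense: each sequence in `G` which leaves all compact sets has a subsequence which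
tends to a point `a`, uniformly outside of each neighbourhood of a point `r`. -/
def SeqConvergence (G Z : Type) [TopologicalSpace G] [SMul G Z] [MetricSpace Z] : Prop :=
  ∀ g : ℕ → G, Tendsto g atTop (cocompact G) → ∃ (a r : Z) (φ : ℕ → ℕ), StrictMono φ ∧
    ∀ ε : ℝ, 0 < ε → ∀ᶠ n in atTop, ∀ z : Z, ε ≤ dist z r → dist (g (φ n) • z) a < ε

/-- the skew product `T(y, z) = (S y, φ(y) z)` -/
def ext {Y G Z : Type} [SMul G Z] (S : Y → Y) (φ : Y → G) (x : Y × Z) : Y × Z := (S x.1, φ x.1 • x.2)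

/-- (A) almost periodic base, cocycle of a convergence group -/
def PartA (E : Set ℕ) : Prop :=
  ∀ (Y G Z : Type) [TopologicalSpace Y] [CompactSpace Y] [T2Space Y] [MetricSpace Z] [CompactSpace Z] [Group G]
    [TopologicalSpace G] [MulAction G Z] [ContinuousSMul G Z] (S : Y → Y) (P : Set Y) (φ : Y → G),
    Convergence G Z → AlmostPeriodic S P → Continuous S → Continuous φ →
    Continuous (ext (Z := Z) S φ) ∧ ∀ F : C(Y × Z, ℂ), Conclusion E S P (ext S φ) Prod.fst F

/-- The sequences `b` of the family `𝓑` are orthogonal to `u`, uniformly over the sequences and the twists `θ`: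
(1) `(1/N) ∑_{n ≤ N} u(n) e(θ n) b(n) → 0` for `N → ∞`, `N ∉ E`;
(2) `(1/log N) ∑_{n ≤ N} u(n) e(θ n) b(n) / n → 0` for `N → ∞`. -/
def Orthogonal (E : Set ℕ) (u : ℕ → ℤ) (𝓑 : Set (ℕ → ℂ)) : Prop :=
  ∀ ε : ℝ, 0 < ε →
    (∃ N₀ : ℕ, ∀ N ≥ N₀, N ∉ E → ∀ b ∈ 𝓑, ∀ θ : ℝ, ‖∑ n ∈ Icc 1 N, (u n : ℂ) * e (θ * n) * b n‖ ≤ ε * N) ∧
    ∃ N₀ : ℕ, ∀ N ≥ N₀, ∀ b ∈ 𝓑, ∀ θ : ℝ, ‖∑ n ∈ Icc 1 N, (u n : ℂ) * e (θ * n) * b n / n‖ ≤ ε * Real.log N

/-- (B) Rotation `y ↦ a y` of a compact abelian group `K`, continuous map `φ` of `K` to a convergence group: the functions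
of the points `g_n z` with `g_n = φ(a^(n-1) y) ⋯ φ(a y) φ(y)`. -/
def PartB (E : Set ℕ) : Prop :=
  ∀ (K G Z : Type) [CommGroup K] [TopologicalSpace K] [IsTopologicalGroup K] [CompactSpace K] [T2Space K]
    [MetricSpace Z] [CompactSpace Z] [Group G] [TopologicalSpace G] [MulAction G Z] [ContinuousSMul G Z] (a : K)
    (φ : K → G), Convergence G Z → Continuous φ → ∀ F : C(K × Z, ℂ),
    ∀ 𝓑 : Set (ℕ → ℂ), (∀ b ∈ 𝓑, ∃ (y : K) (g : ℕ → G) (z : Z), g 0 = 1 ∧ (∀ n, g (n + 1) = φ (a ^ n * y) * g n) ∧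
      ∀ n, b n = F (a ^ n * y, g n • z)) → Orthogonal E mu 𝓑 ∧ Orthogonal E lam 𝓑

/-- (C) The convergence groups in the usual sense have this property, if they are locally compact and `σ`-compact (for
instance discrete and countable). -/
def PartC : Prop :=
  ∀ (G Z : Type) [TopologicalSpace G] [LocallyCompactSpace G] [SigmaCompactSpace G] [SMul G Z] [MetricSpace Z],
    SeqConvergence G Z → Convergence G Z

open Pool.Agent.R296.RE Pool.Agent.R296.VC

theorem partA_of {E : Set ℕ} (h : NullExtensions.PartB E) : PartA E := by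
  intro Y G Z _ _ _ _ _ _ _ _ _ S P φ hG hAP hS hφ
  have hcont : Continuous (ext (Z := Z) S φ) :=
    (hS.comp continuous_fst).prodMk ((hφ.comp continuous_fst).smul continuous_snd)
  refine ⟨hcont, fun F => ?_⟩
  refine h (Y × Z) Y S P (ext S φ) Prod.fst hAP hcont continuous_fst (fun x => rfl) ?_ F
  intro A B hA hB hAB δ hδ
  obtain ⟨d, hd⟩ := Pool.Agent.K3h58.LC.null_conv hG S φ hA hB hAB
  exact ⟨d, Set.univ, isClosed_univ, Mostly_univ hδ.le, fun y _ m => hd y m⟩

theorem orth_of {X Y : Type} {E : Set ℕ} {u : ℕ → ℤ} {S : Y → Y} {T : X → X} {π : X → Y} {F : X → ℂ}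
    (h : Disjoint' E u S Set.univ T π F) {𝓑 : Set (ℕ → ℂ)} (hb : ∀ b ∈ 𝓑, ∃ x, ∀ n, b n = F (T^[n] x)) :
    Orthogonal E u 𝓑 := by
  intro ε hε
  obtain ⟨⟨N₁, h1⟩, -, N₂, h2⟩ := h ε hε
  refine ⟨⟨N₁, fun N hN hNE b hbB θ => ?_⟩, N₂, fun N hN b hbB θ => ?_⟩
  · obtain ⟨x, hx⟩ := hb b hbB
    have h3 := h1 N hN hNE x (Set.mem_univ _) θ
    unfold seq at h3
    simp only [← hx] at h3
    exact h3
  · obtain ⟨x, hx⟩ := hb b hbB
    have h3 := h2 N hN x (Set.mem_univ _) θ
    unfold seq at h3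
    simp only [← hx] at h3
    exact h3

theorem ap_rot {G : Type} [CommGroup G] [TopologicalSpace G] [IsTopologicalGroup G] [CompactSpace G] [T2Space G]
    (a : G) : AlmostPeriodic (fun y => a * y) (Set.univ : Set G) := by
  intro c ε hε
  obtain ⟨J, N₀, h1⟩ := UAP_rot a Set.univ c ε hε
  exact ⟨J, N₀, fun N hN y hy => h1 N hN _ ⟨y, hy, rfl⟩⟩

theorem partB_of {E : Set ℕ} (h : PartA E) : PartB E := by
  intro K G Z _ _ _ _ _ _ _ _ _ _ _ a φ hG hφ F 𝓑 h𝓑
  obtain ⟨-, h1⟩ := h K G Z (fun y => a * y) Set.univ φ hG (ap_rot a) (continuous_const.mul continuous_id) hφ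
  obtain ⟨-, h2, h3⟩ := h1 F
  have hb : ∀ b ∈ 𝓑, ∃ x, ∀ n, b n = F ((ext (fun y => a * y) φ)^[n] x) := by
    intro b hb
    obtain ⟨y, g, z, hg0, hg, hbn⟩ := h𝓑 b hb
    refine ⟨(y, z), fun n => ?_⟩
    have key : ∀ n, (ext (fun y => a * y) φ)^[n] (y, z) = (a ^ n * y, g n • z) := by
      intro n
      induction n with
      | zero => simp [hg0]
      | succ n ih =>
        rw [Function.iterate_succ_apply', ih]
        unfold ext
        simp only [Prod.mk.injEq]
        exact ⟨by rw [pow_succ', mul_assoc], by rw [hg n, mul_smul]⟩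
    rw [key n, hbn n]
  exact ⟨orth_of h2 hb, orth_of h3 hb⟩

/-- **Theorem.** There is one set `E` of logarithmic density zero such that (A) and (B) hold; and (C) holds. -/
theorem result : (∃ E : Set ℕ, LogDensityZero E ∧ PartA E ∧ PartB E) ∧ PartC := by
  obtain ⟨E, hE, -, hB, -, -⟩ := NullExtensions.result
  have h1 := partA_of hB
  refine ⟨⟨E, hE, h1, partB_of h1⟩, ?_⟩
  intro G Z _ _ _ _ _ h
  exact Pool.Agent.K3h58.LC.conv_of_seq h

end Pool.Agent.Results.MP_3e612f_nt.ConvergenceCocycles
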