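import Pool.Agent.K3h58.LC.Pol
import Pool.Agent.Results.MP_3e612f_nt.NullExtensions

/-!
# The logarithmically averaged Sarnak conjecture for linear cocycles (helper58)

Let `(Y, S)` be an almost periodic system, for example a rotation of a compact abelian group, and let `M(y)` be
invertible linear maps of a finite-dimensional real space `V` which depend continuously on `y`. They act on `Y` times
the unit sphere of `V` (the rays of `V`) by `T(y, v) = (S y, M(y) v / |M(y) v|)`. Nothing is assumed on the growth of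
the products `M(S^(n-1) y) ⋯ M(S y) M(y)`: the Lyapunov exponents are arbitrary, equal or not. All points of this system
satisfy the conclusion of the logarithmically averaged Sarnak conjecture. In other words: the directions of the vectors
`v_n = M(S^(n-1) y) ⋯ M(S y) M(y) v` are orthogonal to the Möbius function, for instance for the solutions of linear
recurrences `x_(n+k) = ∑_(j < k) c_j(n) x_(n+j)` with almost periodic coefficients. More generally this holds for all
extensions of `(Y, S)` whose fibres embed into the set of rays of a space `V` such that the fibre maps are restrictions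
of linear maps (so for the actions of linear cocycles on projective spaces, Grassmannians and flag manifolds, and for
cocycles of Möbius transformations of spheres of any dimension).

Proof. Two disjoint closed sets `A`, `B` are separated by a continuous function which is, on each fibre, a polynomial of
degree at most `D` in the coordinates of the unit vector. Up to positive factors its values at the time `m` are
`a |L v| + b`, with homogeneous polynomials `a`, `b` in `v` and a linear map `L`; the sign is given by those of `a`, `b`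
and `a² |L v|² - b²`, which are from spaces of bounded dimension. A linear dependence of evaluations and the lemma of
Sauer and Shelah bound the number of the sign patterns at `d` times by a power of `d`. So the extension is null relative
to its base, and the starting result `NullExtensions` of helper296 applies.
-/

set_option autoImplicit false
set_option linter.unusedSectionVars false

open Finset Filter Topology

namespace Pool.Agent.Results.MP_3e612f_nt.LinearCocycles

open Classical in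
/-- `E` has logarithmic density zero -/
def LogDensityZero (E : Set ℕ) : Prop := Tendsto
  (fun X : ℕ => (∑ n ∈ Icc 1 X, if n ∈ E then (1 : ℝ) / n else 0) / Real.log X) atTop (𝓝 0)

/-- `e(x) = exp(2 π i x)` -/
noncomputable def e (x : ℝ) : ℂ := Complex.exp (2 * Real.pi * x * Complex.I)

/-- the Möbius function -/
def mu (n : ℕ) : ℤ := ArithmeticFunction.moebius n

/-- the Liouville function -/
def lam (n : ℕ) : ℤ := (-1) ^ ArithmeticFunction.cardFactors n

/-- The orbits of the points of `P` are almost periodic at each scale, uniformly in the point: for every continuous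
function `c` and every `ε > 0` there is `J` such that at every large scale `N` and for each `y` in `P` there are
`J` frequencies `α_j` and coefficients `ρ_j(n)`, bounded by `J` and of total variation at most `J` on `[0, N]`, with
`∑_{n < N} |c(Sⁿ y) - ∑_j ρ_j(n) e(α_j n)| ≤ ε N`; frequencies and coefficients may depend on `N` and `y`. -/
def AlmostPeriodic {Y : Type} [TopologicalSpace Y] (S : Y → Y) (P : Set Y) : Prop :=
  ∀ c : C(Y, ℂ), ∀ ε : ℝ, 0 < ε → ∃ J N₀ : ℕ, ∀ N : ℕ, N₀ ≤ N → ∀ y ∈ P, ∃ (ρ : Fin J → ℕ → ℂ) (α : Fin J → ℝ),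
    (∀ j n, ‖ρ j n‖ ≤ J) ∧ (∀ j, ∑ n ∈ range N, ‖ρ j (n + 1) - ρ j n‖ ≤ J) ∧
      ∑ n ∈ range N, ‖c (S^[n] y) - ∑ j, ρ j n * e (α j * n)‖ ≤ ε * N

/-- the sequence `u(n) e(θ n) F(Tⁿ x)` -/
noncomputable def seq {X : Type} (u : ℕ → ℤ) (θ : ℝ) (T : X → X) (F : X → ℂ) (x : X) (n : ℕ) : ℂ :=
  (u n : ℂ) * e (θ * n) * F (T^[n] x)

/-- The function `F` is disjoint from `u`, uniformly over the points `x` of `X` above `P` and the twists `θ`:
(1) `(1/N) ∑_{n ≤ N} u(n) e(θ n) F(Tⁿ x) → 0` for `N → ∞`, `N ∉ E`;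
(2) the same in short intervals `[n, n + H)`, on average over `n < N ∉ E`, where for each interval the point may be
replaced by another point `x_n` of the fibre over `Sⁿ y`;
(3) `(1/log N) ∑_{n ≤ N} u(n) e(θ n) F(Tⁿ x) / n → 0` for `N → ∞`. -/
def Disjoint' {X Y : Type} (E : Set ℕ) (u : ℕ → ℤ) (S : Y → Y) (P : Set Y) (T : X → X) (π : X → Y) (F : X → ℂ) :
    Prop :=
  ∀ ε : ℝ, 0 < ε →
    (∃ N₀ : ℕ, ∀ N ≥ N₀, N ∉ E → ∀ x, π x ∈ P → ∀ θ : ℝ, ‖∑ n ∈ Icc 1 N, seq u θ T F x n‖ ≤ ε * N) ∧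
    (∃ H₀ : ℕ, ∀ H ≥ H₀, ∃ N₀ : ℕ, ∀ N ≥ N₀, N ∉ E → ∀ y ∈ P, ∀ x : ℕ → X, (∀ n, π (x n) = S^[n] y) → ∀ θ : ℝ,
      ∑ n ∈ range N, ‖∑ m ∈ range H, (u (n + m) : ℂ) * e (θ * (n + m : ℕ)) * F (T^[m] (x n))‖ ≤ ε * (H * N)) ∧
    ∃ N₀ : ℕ, ∀ N ≥ N₀, ∀ x, π x ∈ P → ∀ θ : ℝ, ‖∑ n ∈ Icc 1 N, seq u θ T F x n / n‖ ≤ ε * Real.log N

/-- the conclusion of the logarithmically averaged Sarnak conjecture for the points above `P` -/
def LogSarnak {X Y : Type} (P : Set Y) (T : X → X) (π : X → Y) (F : X → ℂ) : Prop :=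
  ∀ x, π x ∈ P → Tendsto (fun N : ℕ => (1 / (Real.log (N : ℝ) : ℂ)) *
    ∑ n ∈ Icc 1 N, F (T^[n] x) * ((ArithmeticFunction.moebius n : ℤ) : ℂ) / (n : ℂ)) atTop (𝓝 0)

/-- all conclusions -/
def Conclusion {X Y : Type} (E : Set ℕ) (S : Y → Y) (P : Set Y) (T : X → X) (π : X → Y) (F : X → ℂ) : Prop :=
  LogSarnak P T π F ∧ Disjoint' E mu S P T π F ∧ Disjoint' E lam S P T π F

/-- (A) Almost periodic base; the fibres are embedded in the set of rays of the finite-dimensional space `V` by the map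
`Φ`, and the fibre maps are restrictions of linear maps `M(y)` (no continuity in `y` is assumed). -/
def PartA (E : Set ℕ) : Prop :=
  ∀ (X Y V : Type) [TopologicalSpace X] [CompactSpace X] [TopologicalSpace Y] [CompactSpace Y] [T2Space Y]
    [NormedAddCommGroup V] [InnerProductSpace ℝ V] [FiniteDimensional ℝ V]
    (S : Y → Y) (P : Set Y) (T : X → X) (π : X → Y) (Φ : X → V) (M : Y → V →ₗ[ℝ] V), AlmostPeriodic S P →
    Continuous T → Continuous π → (∀ x, π (T x) = S (π x)) → Continuous Φ → (∀ x, Φ x ≠ 0) →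
    (∀ x, ∃ r : ℝ, 0 < r ∧ Φ (T x) = r • M (π x) (Φ x)) →
    (∀ x x', π x = π x' → (∃ r : ℝ, 0 < r ∧ Φ x' = r • Φ x) → x = x') → ∀ F : C(X, ℂ), Conclusion E S P T π F

/-- the direction of the image of a unit vector under an injective linear map -/
noncomputable def dir {V : Type} [NormedAddCommGroup V] [InnerProductSpace ℝ V] (M : V →ₗ[ℝ] V)
    (hM : ∀ v, M v = 0 → v = 0) (v : Metric.sphere (0 : V) 1) : Metric.sphere (0 : V) 1 :=
  ⟨‖M v‖⁻¹ • M v, by
    have h1 : ‖M v‖ ≠ 0 := by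
      rw [norm_ne_zero_iff]
      intro h
      have h2 := norm_eq_of_mem_sphere v
      rw [hM v h, norm_zero] at h2
      exact zero_ne_one h2
    rw [mem_sphere_zero_iff_norm, norm_smul, norm_inv, norm_norm, inv_mul_cancel₀ h1]⟩

/-- the linear cocycle `T(y, v) = (S y, M(y) v / |M(y) v|)` on `Y` times the unit sphere -/
noncomputable def cocycle {Y V : Type} [NormedAddCommGroup V] [InnerProductSpace ℝ V] (S : Y → Y)
    (M : Y → V →ₗ[ℝ] V) (hM : ∀ y v, M y v = 0 → v = 0) (x : Y × Metric.sphere (0 : V) 1) :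
    Y × Metric.sphere (0 : V) 1 := (S x.1, dir (M x.1) (hM x.1) x.2)

/-- (B) linear cocycles over an almost periodic base -/
def PartB (E : Set ℕ) : Prop :=
  ∀ (Y V : Type) [TopologicalSpace Y] [CompactSpace Y] [T2Space Y]
    [NormedAddCommGroup V] [InnerProductSpace ℝ V] [FiniteDimensional ℝ V]
    (S : Y → Y) (P : Set Y) (M : Y → V →ₗ[ℝ] V) (hM : ∀ y v, M y v = 0 → v = 0), AlmostPeriodic S P →
    Continuous S → Continuous (fun p : Y × V => M p.1 p.2) →
    Continuous (cocycle S M hM) ∧ ∀ F : C(Y × Metric.sphere (0 : V) 1, ℂ), Conclusion E S P (cocycle S M hM) Prod.fst F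

/-- The sequences `b` of the family `𝓑` are orthogonal to `u`, uniformly over the sequences and the twists `θ`:
(1) `(1/N) ∑_{n ≤ N} u(n) e(θ n) b(n) → 0` for `N → ∞`, `N ∉ E`;
(2) `(1/log N) ∑_{n ≤ N} u(n) e(θ n) b(n) / n → 0` for `N → ∞`. -/
def Orthogonal (E : Set ℕ) (u : ℕ → ℤ) (𝓑 : Set (ℕ → ℂ)) : Prop :=
  ∀ ε : ℝ, 0 < ε →
    (∃ N₀ : ℕ, ∀ N ≥ N₀, N ∉ E → ∀ b ∈ 𝓑, ∀ θ : ℝ, ‖∑ n ∈ Icc 1 N, (u n : ℂ) * e (θ * n) * b n‖ ≤ ε * N) ∧
    ∃ N₀ : ℕ, ∀ N ≥ N₀, ∀ b ∈ 𝓑, ∀ θ : ℝ, ‖∑ n ∈ Icc 1 N, (u n : ℂ) * e (θ * n) * b n / n‖ ≤ ε * Real.log N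

/-- (C) Rotation `y ↦ a y` of a compact abelian group, invertible linear maps `M(y)` of a finite-dimensional space which
depend continuously on `y`: the functions of the directions of the vectors `v_n = M(a^(n-1) y) ⋯ M(a y) M(y) v_0`. -/
def PartC (E : Set ℕ) : Prop :=
  ∀ (G V : Type) [CommGroup G] [TopologicalSpace G] [IsTopologicalGroup G] [CompactSpace G] [T2Space G]
    [NormedAddCommGroup V] [InnerProductSpace ℝ V] [FiniteDimensional ℝ V] (a : G) (M : G → V →ₗ[ℝ] V),
    (∀ y v, M y v = 0 → v = 0) → Continuous (fun p : G × V => M p.1 p.2) → ∀ F : G × V → ℂ, Continuous F →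
    ∀ 𝓑 : Set (ℕ → ℂ), (∀ b ∈ 𝓑, ∃ (y : G) (v : ℕ → V), v 0 ≠ 0 ∧ (∀ n, v (n + 1) = M (a ^ n * y) (v n)) ∧
      ∀ n, b n = F (a ^ n * y, ‖v n‖⁻¹ • v n)) → Orthogonal E mu 𝓑 ∧ Orthogonal E lam 𝓑

/-- the vector `(x_n, …, x_(n+k-1))` -/
noncomputable def window (k : ℕ) (x : ℕ → ℝ) (n : ℕ) : EuclideanSpace ℝ (Fin k) :=
  WithLp.toLp 2 fun j => x (n + j)

/-- (D) Linear recurrences `x_(n+k) = ∑_(j < k) c_j(a^n y) x_(n+j)` with continuous functions `c_j` on a compact abelian
group, `c_0` without zeros: the functions of the directions of the vectors `(x_n, …, x_(n+k-1))`. -/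
def PartD (E : Set ℕ) : Prop :=
  ∀ (G : Type) [CommGroup G] [TopologicalSpace G] [IsTopologicalGroup G] [CompactSpace G] [T2Space G] (k : ℕ)
    (a : G) (c : Fin (k + 1) → G → ℝ), (∀ j, Continuous (c j)) → (∀ y, c 0 y ≠ 0) →
    ∀ F : G × EuclideanSpace ℝ (Fin (k + 1)) → ℂ, Continuous F →
    ∀ 𝓑 : Set (ℕ → ℂ), (∀ b ∈ 𝓑, ∃ (y : G) (x : ℕ → ℝ), (∃ j < k + 1, x j ≠ 0) ∧
      (∀ n, x (n + (k + 1)) = ∑ j, c j (a ^ n * y) * x (n + j)) ∧
      ∀ n, b n = F (a ^ n * y, ‖window (k + 1) x n‖⁻¹ • window (k + 1) x n)) → Orthogonal E mu 𝓑 ∧ Orthogonal E lam 𝓑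

open Pool.Agent.R296.RE Pool.Agent.R296.VC

theorem partA_of {E : Set ℕ} (h : NullExtensions.PartB E) : PartA E := by
  intro X Y V _ _ _ _ _ _ _ _ S P T π Φ M hAP hT hπ hπT hΦ hΦ0 hM hsep F
  refine h X Y S P T π hAP hT hπ hπT ?_ F
  intro A B hA hB hAB δ hδ
  obtain ⟨d, hd⟩ := Pool.Agent.K3h58.LC.null_lin hπ hπT hΦ hΦ0 hM hsep hA hB hAB
  exact ⟨d, Set.univ, isClosed_univ, Mostly_univ hδ.le, fun y _ m => hd y m⟩

section

variable {Y V : Type} [TopologicalSpace Y] [NormedAddCommGroup V] [InnerProductSpace ℝ V]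

lemma sphere_ne (v : Metric.sphere (0 : V) 1) : (v : V) ≠ 0 := by
  intro h
  have h2 := norm_eq_of_mem_sphere v
  rw [h, norm_zero] at h2
  exact zero_ne_one h2

theorem cocycle_cont {S : Y → Y} (hS : Continuous S) {M : Y → V →ₗ[ℝ] V} (hM : ∀ y v, M y v = 0 → v = 0)
    (hc : Continuous (fun p : Y × V => M p.1 p.2)) : Continuous (cocycle S M hM) := by
  refine (hS.comp continuous_fst).prodMk ?_
  have h1 : Continuous fun x : Y × Metric.sphere (0 : V) 1 => M x.1 x.2 :=
    hc.comp (continuous_fst.prodMk (continuous_subtype_val.comp continuous_snd))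
  have h2 : ∀ x : Y × Metric.sphere (0 : V) 1, ‖M x.1 x.2‖ ≠ 0 := fun x => by
    rw [norm_ne_zero_iff]
    exact fun h => sphere_ne x.2 (hM _ _ h)
  exact ((h1.norm.inv₀ h2).smul h1).subtype_mk _

end

theorem partB_of {E : Set ℕ} (h : PartA E) : PartB E := by
  intro Y V _ _ _ _ _ _ S P M hM hAP hS hc
  have hcont := cocycle_cont hS hM hc
  refine ⟨hcont, fun F => ?_⟩
  refine h (Y × Metric.sphere (0 : V) 1) Y V S P (cocycle S M hM) Prod.fst (fun x => (x.2 : V)) M hAP hcont
    continuous_fst (fun x => rfl) (continuous_subtype_val.comp continuous_snd) (fun x => sphere_ne x.2)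
    (fun x => ⟨‖M x.1 x.2‖⁻¹, ?_, rfl⟩) ?_ F
  · rw [inv_pos, norm_pos_iff]
    exact fun h => sphere_ne x.2 (hM _ _ h)
  · rintro ⟨y, v⟩ ⟨y', v'⟩ h1 ⟨r, hr, h2⟩
    have h3 : y = y' := h1
    have h4 : (v' : V) = r • (v : V) := h2
    have h5 := norm_eq_of_mem_sphere v'
    rw [h4, norm_smul, norm_eq_of_mem_sphere v, mul_one, Real.norm_of_nonneg hr.le] at h5
    rw [h5, one_smul] at h4
    rw [h3, Subtype.ext h4]

theorem orth_of {X Y : Type} {E : Set ℕ} {u : ℕ → ℤ} {S : Y → Y} {T : X → X} {π : X → Y} {F : X → ℂ}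
    (h : Disjoint' E u S Set.univ T π F) {𝓑 : Set (ℕ → ℂ)} (hb : ∀ b ∈ 𝓑, ∃ x, ∀ n, b n = F (T^[n] x)) :
    Orthogonal E u 𝓑 := by
  intro ε hε
  obtain ⟨⟨N₁, h1⟩, -, N₂, h2⟩ := h ε hε
  refine ⟨⟨N₁, fun N hN hNE b hbB θ => ?_⟩, N₂, fun N hN b hbB θ => ?_⟩
  · obtain ⟨x, hx⟩ := hb b hbB
    have h3 := h1 N hN hNE x (Set.mem_univ _) θ
    unfold seq at h3
    simp only [← hx] at h3
    exact h3
  · obtain ⟨x, hx⟩ := hb b hbB
    have h3 := h2 N hN x (Set.mem_univ _) θ
    unfold seq at h3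
    simp only [← hx] at h3
    exact h3

theorem ap_rot {G : Type} [CommGroup G] [TopologicalSpace G] [IsTopologicalGroup G] [CompactSpace G] [T2Space G]
    (a : G) : AlmostPeriodic (fun y => a * y) (Set.univ : Set G) := by
  intro c ε hε
  obtain ⟨J, N₀, h1⟩ := UAP_rot a Set.univ c ε hε
  exact ⟨J, N₀, fun N hN y hy => h1 N hN _ ⟨y, hy, rfl⟩⟩

theorem partC_of {E : Set ℕ} (h : PartB E) : PartC E := by
  intro G V _ _ _ _ _ _ _ _ a M hM hc F hF 𝓑 h𝓑
  obtain ⟨-, h1⟩ := h G V (fun y => a * y) Set.univ M hM (ap_rot a) (continuous_const.mul continuous_id) hc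
  let F' : C(G × Metric.sphere (0 : V) 1, ℂ) := ⟨fun x => F (x.1, (x.2 : V)),
    hF.comp (continuous_fst.prodMk (continuous_subtype_val.comp continuous_snd))⟩
  obtain ⟨-, h2, h3⟩ := h1 F'
  have hb : ∀ b ∈ 𝓑, ∃ x, ∀ n, b n = F' ((cocycle (fun y => a * y) M hM)^[n] x) := by
    intro b hb
    obtain ⟨y, v, hv0, hv, hbn⟩ := h𝓑 b hb
    have hvn : ∀ n, v n ≠ 0 := by
      intro n
      induction n with
      | zero => exact hv0
      | succ n ih =>
        rw [hv]
        exact fun h => ih (hM _ _ h)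
    have hsph : ∀ n, ‖v n‖⁻¹ • v n ∈ Metric.sphere (0 : V) 1 := fun n => by
      rw [mem_sphere_zero_iff_norm, norm_smul, norm_inv, norm_norm, inv_mul_cancel₀ (norm_ne_zero_iff.2 (hvn n))]
    refine ⟨(y, ⟨_, hsph 0⟩), fun n => ?_⟩
    have key : ∀ n, (cocycle (fun y => a * y) M hM)^[n] (y, ⟨_, hsph 0⟩) = (a ^ n * y, ⟨_, hsph n⟩) := by
      intro n
      induction n with
      | zero => simp
      | succ n ih =>
        rw [Function.iterate_succ_apply', ih]
        unfold cocycle dir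
        simp only [Prod.mk.injEq, Subtype.mk.injEq]
        refine ⟨by rw [pow_succ', mul_assoc], ?_⟩
        rw [map_smul, ← hv n, norm_smul, norm_inv, norm_norm, smul_smul, mul_inv, inv_inv, mul_comm ‖v n‖,
          mul_assoc, mul_inv_cancel₀ (norm_ne_zero_iff.2 (hvn n)), mul_one]
    rw [key n, hbn n]
    rfl
  exact ⟨orth_of h2 hb, orth_of h3 hb⟩

/-- the companion map -/
noncomputable def comp (k : ℕ) (c : Fin (k + 1) → ℝ) :
    EuclideanSpace ℝ (Fin (k + 1)) →ₗ[ℝ] EuclideanSpace ℝ (Fin (k + 1)) where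
  toFun w := WithLp.toLp 2 fun i => if h : (i : ℕ) + 1 < k + 1 then w ⟨i + 1, h⟩ else ∑ j, c j * w j
  map_add' v w := by
    ext i
    simp only [PiLp.add_apply]
    split_ifs with h
    · rfl
    · rw [← sum_add_distrib]
      exact sum_congr rfl fun j _ => by ring
  map_smul' r v := by
    ext i
    simp only [PiLp.smul_apply, smul_eq_mul, RingHom.id_apply]
    split_ifs with h
    · rfl
    · rw [mul_sum]
      exact sum_congr rfl fun j _ => by ring

theorem partD_of {E : Set ℕ} (h : PartC E) : PartD E := by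
  intro G _ _ _ _ _ k a c hc hc0 F hF 𝓑 h𝓑
  refine h G (EuclideanSpace ℝ (Fin (k + 1))) a (fun y => comp k fun j => c j y) ?_ ?_ F hF 𝓑 ?_
  · intro y v hv
    have h1 : ∀ i : Fin (k + 1), (if h : (i : ℕ) + 1 < k + 1 then v ⟨i + 1, h⟩ else ∑ j, c j y * v j) = 0 :=
      fun i => congrArg (fun w : EuclideanSpace ℝ (Fin (k + 1)) => w i) hv
    have h2 : ∀ j : Fin (k + 1), j ≠ 0 → v j = 0 := by
      intro j hj
      have hj1 : (j : ℕ) ≠ 0 := fun h => hj (Fin.ext h)
      have h3 := h1 ⟨(j : ℕ) - 1, by omega⟩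
      have h4 : (j : ℕ) - 1 + 1 = j := by omega
      simp only [h4, j.2, dif_pos] at h3
      exact h3
    have h3 := h1 (Fin.last k)
    simp only [Fin.val_last, lt_irrefl, dif_neg, not_false_iff] at h3
    rw [sum_eq_single (0 : Fin (k + 1)) (fun j _ hj => by rw [h2 j hj, mul_zero])
      (fun h => absurd (mem_univ _) h)] at h3
    ext j
    by_cases hj : j = 0
    · rw [hj]
      exact (mul_eq_zero.1 h3).resolve_left (hc0 y)
    · exact h2 j hj
  · refine (PiLp.continuous_toLp 2 _).comp (continuous_pi fun i => ?_)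
    by_cases hi : (i : ℕ) + 1 < k + 1
    · simp only [hi, dif_pos]
      exact (PiLp.continuous_apply 2 _ _).comp continuous_snd
    · simp only [hi, dif_neg, not_false_iff]
      exact continuous_finsetSum _ fun j _ => ((hc j).comp continuous_fst).mul
        ((PiLp.continuous_apply 2 _ _).comp continuous_snd)
  · intro b hb
    obtain ⟨y, x, ⟨j, hj, hxj⟩, hx, hbn⟩ := h𝓑 b hb
    refine ⟨y, window (k + 1) x, ?_, fun n => ?_, hbn⟩
    · intro h0
      refine hxj ?_
      have h1 := congrArg (fun w : EuclideanSpace ℝ (Fin (k + 1)) => w ⟨j, hj⟩) h0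
      have h2 : x (0 + j) = 0 := h1
      rwa [zero_add] at h2
    · ext i
      show x (n + 1 + i) = if h : (i : ℕ) + 1 < k + 1 then x (n + ((i : ℕ) + 1)) else
        ∑ j : Fin (k + 1), c j (a ^ n * y) * x (n + j)
      split_ifs with h
      · congr 1
        ring
      · have h1 : (i : ℕ) = k := by omega
        rw [← hx n, h1]
        congr 1
        ring

/-- **Theorem.** There is one set `E` of logarithmic density zero such that (A), (B), (C) and (D) hold. -/
theorem result : ∃ E : Set ℕ, LogDensityZero E ∧ PartA E ∧ PartB E ∧ PartC E ∧ PartD E := by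
  obtain ⟨E, hE, -, hB, -, -⟩ := NullExtensions.result
  have h1 := partA_of hB
  have h2 := partB_of h1
  have h3 := partC_of h2
  exact ⟨E, hE, h1, h2, h3, partD_of h3⟩

end Pool.Agent.Results.MP_3e612f_nt.LinearCocycles
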