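import Pool.Agent.K3h58.LC.UltraSys
import Pool.Agent.Results.MP_3e612f_nt.NullExtensions
import Pool.Agent.Results.MP_3e612f_nt.ArbitraryBase

/-!
# The logarithmically averaged Sarnak conjecture for `p`-adic linear cocycles (helper58)

Let `F` be a field with a non-archimedean absolute value, for example `ℚ_p` or `𝔽_q((t))`, let `(Y, S)` be an almost
periodic system, for example a rotation of a compact abelian group, and let `M(y)` be invertible linear maps of `F^k`
which depend continuously on `y`. Nothing is assumed on the growth of the products `M(S^(n-1) y) ⋯ M(S y) M(y)`. The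
sequences `H(Sⁿ y, v_n)`, `v_n = M(S^(n-1) y) ⋯ M(S y) M(y) v_0`, are orthogonal to the Möbius function for every
continuous function `H` on `Y × (F^k ∖ 0)` which depends only on the line through `v`, for example the functions of the
differences of the valuations of the coordinates of `v_n`; so for the solutions of linear recurrences over `ℚ_p` with
almost periodic coefficients. More generally this holds for all extensions of `(Y, S)` whose fibres embed into the
projective space of `F^k` such that the fibre maps are restrictions of linear maps (so for Grassmannians and flag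
manifolds over `F`). For stationary random products of matrices from a compact subset of `GL_k(F)` it holds for
all vectors `v_0` at the same time, up to `ε`, with probability at least `1 - ε`.

Proof. Two disjoint closed sets `A`, `B` are separated on the fibres by finitely many conditions `|q(v)| > |v|` with
linear functionals `q`. For linear functions `f_(i, a)` let `κ_i(v)` be the least place `a` of the maximum of
`|f_(i, a)(v)|`. The products of the functions along the occurring patterns `κ(v)` are linearly independent (evaluate a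
linear dependence at the vector of a maximal pattern among those with coefficient of maximal absolute value) and
are polynomials of bounded degree in `k` variables; so the number of the patterns at `d` times is bounded by a power of
`d`, the extension is null relative to its base, and the starting results `NullExtensions` and `ArbitraryBase` of
helper296 apply. For real linear cocycles see `LinearCocycles`; there the proof is by sign patterns.
-/

set_option autoImplicit false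
set_option linter.unusedSectionVars false

open Finset Filter Topology MeasureTheory

namespace Pool.Agent.Results.MP_3e612f_nt.NonArchimedeanCocycles

open Classical in
/-- `E` has logarithmic density zero -/
def LogDensityZero (E : Set ℕ) : Prop := Tendsto
  (fun X : ℕ => (∑ n ∈ Icc 1 X, if n ∈ E then (1 : ℝ) / n else 0) / Real.log X) atTop (𝓝 0)

/-- `e(x) = exp(2 π i x)` -/
noncomputable def e (x : ℝ) : ℂ := Complex.exp (2 * Real.pi * x * Complex.I)

/-- the Möbius function -/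
def mu (n : ℕ) : ℤ := ArithmeticFunction.moebius n

/-- the Liouville function -/
def lam (n : ℕ) : ℤ := (-1) ^ ArithmeticFunction.cardFactors n

/-- The orbits of the points of `P` are almost periodic at each scale, uniformly in the point: for every continuous
function `c` and every `ε > 0` there is `J` such that at every large scale `N` and for each `y` in `P` there are
`J` frequencies `α_j` and coefficients `ρ_j(n)`, bounded by `J` and of total variation at most `J` on `[0, N]`, with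
`∑_{n < N} |c(Sⁿ y) - ∑_j ρ_j(n) e(α_j n)| ≤ ε N`; frequencies and coefficients may depend on `N` and `y`. -/
def AlmostPeriodic {Y : Type} [TopologicalSpace Y] (S : Y → Y) (P : Set Y) : Prop :=
  ∀ c : C(Y, ℂ), ∀ ε : ℝ, 0 < ε → ∃ J N₀ : ℕ, ∀ N : ℕ, N₀ ≤ N → ∀ y ∈ P, ∃ (ρ : Fin J → ℕ → ℂ) (α : Fin J → ℝ),
    (∀ j n, ‖ρ j n‖ ≤ J) ∧ (∀ j, ∑ n ∈ range N, ‖ρ j (n + 1) - ρ j n‖ ≤ J) ∧
      ∑ n ∈ range N, ‖c (S^[n] y) - ∑ j, ρ j n * e (α j * n)‖ ≤ ε * N

/-- the sequence `u(n) e(θ n) F(Tⁿ x)` -/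
noncomputable def seq {X : Type} (u : ℕ → ℤ) (θ : ℝ) (T : X → X) (F : X → ℂ) (x : X) (n : ℕ) : ℂ :=
  (u n : ℂ) * e (θ * n) * F (T^[n] x)

/-- The function `F` is disjoint from `u`, uniformly over the points `x` of `X` above `P` and the twists `θ`:
(1) `(1/N) ∑_{n ≤ N} u(n) e(θ n) F(Tⁿ x) → 0` for `N → ∞`, `N ∉ E`;
(2) the same in short intervals `[n, n + H)`, on average over `n < N ∉ E`, where for each interval the point may be
replaced by another point `x_n` of the fibre over `Sⁿ y`;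
(3) `(1/log N) ∑_{n ≤ N} u(n) e(θ n) F(Tⁿ x) / n → 0` for `N → ∞`. -/
def Disjoint' {X Y : Type} (E : Set ℕ) (u : ℕ → ℤ) (S : Y → Y) (P : Set Y) (T : X → X) (π : X → Y) (F : X → ℂ) :
    Prop :=
  ∀ ε : ℝ, 0 < ε →
    (∃ N₀ : ℕ, ∀ N ≥ N₀, N ∉ E → ∀ x, π x ∈ P → ∀ θ : ℝ, ‖∑ n ∈ Icc 1 N, seq u θ T F x n‖ ≤ ε * N) ∧
    (∃ H₀ : ℕ, ∀ H ≥ H₀, ∃ N₀ : ℕ, ∀ N ≥ N₀, N ∉ E → ∀ y ∈ P, ∀ x : ℕ → X, (∀ n, π (x n) = S^[n] y) → ∀ θ : ℝ,
      ∑ n ∈ range N, ‖∑ m ∈ range H, (u (n + m) : ℂ) * e (θ * (n + m : ℕ)) * F (T^[m] (x n))‖ ≤ ε * (H * N)) ∧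
    ∃ N₀ : ℕ, ∀ N ≥ N₀, ∀ x, π x ∈ P → ∀ θ : ℝ, ‖∑ n ∈ Icc 1 N, seq u θ T F x n / n‖ ≤ ε * Real.log N

/-- the conclusion of the logarithmically averaged Sarnak conjecture for the points above `P` -/
def LogSarnak {X Y : Type} (P : Set Y) (T : X → X) (π : X → Y) (F : X → ℂ) : Prop :=
  ∀ x, π x ∈ P → Tendsto (fun N : ℕ => (1 / (Real.log (N : ℝ) : ℂ)) *
    ∑ n ∈ Icc 1 N, F (T^[n] x) * ((ArithmeticFunction.moebius n : ℤ) : ℂ) / (n : ℂ)) atTop (𝓝 0)

/-- all conclusions -/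
def Conclusion {X Y : Type} (E : Set ℕ) (S : Y → Y) (P : Set Y) (T : X → X) (π : X → Y) (F : X → ℂ) : Prop :=
  LogSarnak P T π F ∧ Disjoint' E mu S P T π F ∧ Disjoint' E lam S P T π F

/-- (A) Almost periodic base; the fibres are embedded in the projective space of `F^k` by the map `Φ`, and the fibre maps
are restrictions of linear maps `M(y)` (no continuity in `y` is assumed). `F` is a field with a non-archimedean
absolute value. -/
def PartA (E : Set ℕ) : Prop :=
  ∀ (X Y F : Type) [TopologicalSpace X] [CompactSpace X] [TopologicalSpace Y] [CompactSpace Y] [T2Space Y]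
    [NontriviallyNormedField F] [IsUltrametricDist F] (k : ℕ)
    (S : Y → Y) (P : Set Y) (T : X → X) (π : X → Y) (Φ : X → Fin k → F) (M : Y → (Fin k → F) →ₗ[F] (Fin k → F)),
    AlmostPeriodic S P → Continuous T → Continuous π → (∀ x, π (T x) = S (π x)) → Continuous Φ → (∀ x, Φ x ≠ 0) →
    (∀ x, ∃ r : F, r ≠ 0 ∧ Φ (T x) = r • M (π x) (Φ x)) →
    (∀ x x', π x = π x' → (∃ r : F, r ≠ 0 ∧ Φ x' = r • Φ x) → x = x') → ∀ G : C(X, ℂ), Conclusion E S P T π G

/-- The sequences `b` of the family `𝓑` are orthogonal to `u`, uniformly over the sequences and the twists `θ`: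
(1) `(1/N) ∑_{n ≤ N} u(n) e(θ n) b(n) → 0` for `N → ∞`, `N ∉ E`;
(2) `(1/log N) ∑_{n ≤ N} u(n) e(θ n) b(n) / n → 0` for `N → ∞`. -/
def Orthogonal (E : Set ℕ) (u : ℕ → ℤ) (𝓑 : Set (ℕ → ℂ)) : Prop :=
  ∀ ε : ℝ, 0 < ε →
    (∃ N₀ : ℕ, ∀ N ≥ N₀, N ∉ E → ∀ b ∈ 𝓑, ∀ θ : ℝ, ‖∑ n ∈ Icc 1 N, (u n : ℂ) * e (θ * n) * b n‖ ≤ ε * N) ∧
    ∃ N₀ : ℕ, ∀ N ≥ N₀, ∀ b ∈ 𝓑, ∀ θ : ℝ, ‖∑ n ∈ Icc 1 N, (u n : ℂ) * e (θ * n) * b n / n‖ ≤ ε * Real.log N

/-- (B) Almost periodic base, locally compact non-archimedean field `F`, injective linear maps `M(y)` of `F^(k+1)` which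
depend continuously on `y`: the functions `H` of the lines through the vectors
`v_n = M(S^(n-1) y) ⋯ M(S y) M(y) v_0`, `v_0 ≠ 0`. -/
def PartB (E : Set ℕ) : Prop :=
  ∀ (Y F : Type) [TopologicalSpace Y] [CompactSpace Y] [T2Space Y]
    [NontriviallyNormedField F] [IsUltrametricDist F] [ProperSpace F] (k : ℕ)
    (S : Y → Y) (P : Set Y) (M : Y → (Fin (k + 1) → F) →ₗ[F] (Fin (k + 1) → F)), (∀ y v, M y v = 0 → v = 0) →
    AlmostPeriodic S P → Continuous S → Continuous (fun p : Y × (Fin (k + 1) → F) => M p.1 p.2) →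
    ∀ H : Y × (Fin (k + 1) → F) → ℂ, ContinuousOn H {p | p.2 ≠ 0} → (∀ y v (r : F), r ≠ 0 → H (y, r • v) = H (y, v)) →
    ∀ 𝓑 : Set (ℕ → ℂ), (∀ b ∈ 𝓑, ∃ y ∈ P, ∃ v : ℕ → Fin (k + 1) → F, v 0 ≠ 0 ∧ (∀ n, v (n + 1) = M (S^[n] y) (v n)) ∧
      ∀ n, b n = H (S^[n] y, v n)) → Orthogonal E mu 𝓑 ∧ Orthogonal E lam 𝓑

/-- the vector `(x_n, …, x_(n+k-1))` -/
def window {F : Type} (k : ℕ) (x : ℕ → F) (n : ℕ) : Fin k → F := fun j => x (n + j)

/-- (C) Linear recurrences `x_(n+k+1) = ∑_(j ≤ k) c_j(a^n y) x_(n+j)` over a locally compact non-archimedean field, with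
continuous functions `c_j` on a compact abelian group, `c_0` without zeros: the functions of the lines through the
vectors `(x_n, …, x_(n+k))`, for example of the quotients `x_(n+1) / x_n` as points of `F ∪ {∞}`. -/
def PartC (E : Set ℕ) : Prop :=
  ∀ (G F : Type) [CommGroup G] [TopologicalSpace G] [IsTopologicalGroup G] [CompactSpace G] [T2Space G]
    [NontriviallyNormedField F] [IsUltrametricDist F] [ProperSpace F] (k : ℕ)
    (a : G) (c : Fin (k + 1) → G → F), (∀ j, Continuous (c j)) → (∀ y, c 0 y ≠ 0) →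
    ∀ H : G × (Fin (k + 1) → F) → ℂ, ContinuousOn H {p | p.2 ≠ 0} → (∀ y v (r : F), r ≠ 0 → H (y, r • v) = H (y, v)) →
    ∀ 𝓑 : Set (ℕ → ℂ), (∀ b ∈ 𝓑, ∃ (y : G) (x : ℕ → F), (∃ j < k + 1, x j ≠ 0) ∧
      (∀ n, x (n + (k + 1)) = ∑ j, c j (a ^ n * y) * x (n + j)) ∧
      ∀ n, b n = H (a ^ n * y, window (k + 1) x n)) → Orthogonal E mu 𝓑 ∧ Orthogonal E lam 𝓑

/-- For all large `N`, uniformly in the probability space `Ω`, the measure preserving map `σ` and the random variable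
`g` with values in `K`, all the sequences `b` of the family `𝓑(g(ω), g(σ ω), g(σ² ω), …)` satisfy, with probability at least
`1 - ε`: `|∑_{n ≤ N} u(n) e(θ n) b(n)| ≤ ε N` for all `θ`, if `N ∉ E`; and
`|∑_{n ≤ N} u(n) e(θ n) b(n) / n| ≤ ε log N` for all `θ`. -/
def Stationary {K : Type} [MeasurableSpace K] (E : Set ℕ) (u : ℕ → ℤ) (𝓑 : (ℕ → K) → Set (ℕ → ℂ)) : Prop :=
  ∀ ε : ℝ, 0 < ε → ∃ N₀ : ℕ, ∀ N ≥ N₀, ∀ (Ω : Type) [MeasurableSpace Ω] (P : Measure Ω) (σ : Ω → Ω) (g : Ω → K),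
    IsProbabilityMeasure P → MeasurePreserving σ P P → Measurable g →
    (N ∉ E → P {ω | ∃ b ∈ 𝓑 fun n => g (σ^[n] ω), ∃ θ : ℝ,
      ε * N < ‖∑ n ∈ Icc 1 N, (u n : ℂ) * e (θ * n) * b n‖} ≤ ENNReal.ofReal ε) ∧
    P {ω | ∃ b ∈ 𝓑 fun n => g (σ^[n] ω), ∃ θ : ℝ,
      ε * Real.log N < ‖∑ n ∈ Icc 1 N, (u n : ℂ) * e (θ * n) * b n / n‖} ≤ ENNReal.ofReal ε

/-- (D) Stationary products of random injective linear maps of `F^(k+1)` from a compact metric space `K` of such maps:
the functions of the lines through the vectors `v_n = g_(n-1) ⋯ g_1 g_0 v_0`, for all `v_0 ≠ 0`. -/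
def PartD (E : Set ℕ) : Prop :=
  ∀ (K F : Type) [MetricSpace K] [CompactSpace K] [MeasurableSpace K] [BorelSpace K]
    [NontriviallyNormedField F] [IsUltrametricDist F] [ProperSpace F] (k : ℕ)
    (M : K → (Fin (k + 1) → F) →ₗ[F] (Fin (k + 1) → F)),
    (∀ g v, M g v = 0 → v = 0) → Continuous (fun p : K × (Fin (k + 1) → F) => M p.1 p.2) →
    ∀ H : (Fin (k + 1) → F) → ℂ, ContinuousOn H {v | v ≠ 0} → (∀ v (r : F), r ≠ 0 → H (r • v) = H v) →
    ∀ u : ℕ → ℤ, (u = mu ∨ u = lam) → Stationary E u fun g : ℕ → K => {b | ∃ v : ℕ → Fin (k + 1) → F, v 0 ≠ 0 ∧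
      (∀ n, v (n + 1) = M (g n) (v n)) ∧ ∀ n, b n = H (v n)}

open Pool.Agent.R296.RE Pool.Agent.R296.VC Pool.Agent.K3h58.LC

theorem partA_of {E : Set ℕ} (h : NullExtensions.PartB E) : PartA E := by
  intro X Y F _ _ _ _ _ _ _ k S P T π Φ M hAP hT hπ hπT hΦ hΦ0 hM hsep G
  refine h X Y S P T π hAP hT hπ hπT ?_ G
  intro A B hA hB hAB δ hδ
  obtain ⟨d, hd⟩ := null_ultra hπ hπT hΦ hΦ0 hM hsep hA hB hAB
  exact ⟨d, Set.univ, isClosed_univ, Mostly_univ hδ.le, fun y _ m => hd y m⟩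

theorem orth_of {X Y : Type} {E : Set ℕ} {u : ℕ → ℤ} {S : Y → Y} {P : Set Y} {T : X → X} {π : X → Y} {F : X → ℂ}
    (h : Disjoint' E u S P T π F) {𝓑 : Set (ℕ → ℂ)} (hb : ∀ b ∈ 𝓑, ∃ x, π x ∈ P ∧ ∀ n, b n = F (T^[n] x)) :
    Orthogonal E u 𝓑 := by
  intro ε hε
  obtain ⟨⟨N₁, h1⟩, -, N₂, h2⟩ := h ε hε
  refine ⟨⟨N₁, fun N hN hNE b hbB θ => ?_⟩, N₂, fun N hN b hbB θ => ?_⟩
  · obtain ⟨x, hxP, hx⟩ := hb b hbB
    have h3 := h1 N hN hNE x hxP θ
    unfold seq at h3
    simp only [← hx] at h3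
    exact h3
  · obtain ⟨x, hxP, hx⟩ := hb b hbB
    have h3 := h2 N hN x hxP θ
    unfold seq at h3
    simp only [← hx] at h3
    exact h3

/-- the function on the normalised vectors -/
noncomputable def onNF {Y F : Type} [TopologicalSpace Y] [NormedField F] {k : ℕ} (H : Y × (Fin (k + 1) → F) → ℂ)
    (hH : ContinuousOn H {p | p.2 ≠ 0}) : C(Y × NF F k, ℂ) :=
  ⟨fun x => H (x.1, x.2), by
    rw [← continuousOn_univ]
    exact hH.comp (continuous_fst.prodMk (continuous_subtype_val.comp continuous_snd)).continuousOn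
      fun x _ => ne_of_mem x.2.2⟩

lemma onNF_nf {Y F : Type} [NormedField F] {k : ℕ} {H : Y × (Fin (k + 1) → F) → ℂ}
    (hs : ∀ y v (r : F), r ≠ 0 → H (y, r • v) = H (y, v)) (y : Y) {v : Fin (k + 1) → F} (hv : v ≠ 0) :
    H (y, nf v) = H (y, v) := hs y v _ (inv_ne_zero (apply_amax_ne hv))

theorem partB_of {E : Set ℕ} (h : NullExtensions.PartB E) : PartB E := by
  intro Y F _ _ _ _ _ _ k S P M hM hAP hS hc H hH hs 𝓑 h𝓑
  obtain ⟨-, h2, h3⟩ := h (Y × NF F k) Y S P (proj S M hM) Prod.fst hAP (proj_cont hS hM hc) continuous_fst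
    (fun x => rfl) (by
      intro A B hA hB hAB δ hδ
      obtain ⟨d, hd⟩ := proj_null (S := S) hM hA hB hAB
      exact ⟨d, Set.univ, isClosed_univ, Mostly_univ hδ.le, fun y _ m => hd y m⟩) (onNF H hH)
  have hb : ∀ b ∈ 𝓑, ∃ x : Y × NF F k, x.1 ∈ P ∧ ∀ n, b n = onNF H hH ((proj S M hM)^[n] x) := by
    intro b hb
    obtain ⟨y, hy, v, hv0, hv, hbn⟩ := h𝓑 b hb
    obtain ⟨hvn, hit⟩ := proj_iter hM hv0 hv
    refine ⟨(y, ⟨nf (v 0), nf_mem hv0⟩), hy, fun n => ?_⟩
    rw [hit n, hbn n]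
    exact (onNF_nf hs _ (hvn n)).symm
  exact ⟨orth_of h2 hb, orth_of h3 hb⟩

theorem ap_rot {G : Type} [CommGroup G] [TopologicalSpace G] [IsTopologicalGroup G] [CompactSpace G] [T2Space G]
    (a : G) : AlmostPeriodic (fun y => a * y) (Set.univ : Set G) := by
  intro c ε hε
  obtain ⟨J, N₀, h1⟩ := UAP_rot a Set.univ c ε hε
  exact ⟨J, N₀, fun N hN y hy => h1 N hN _ ⟨y, hy, rfl⟩⟩

lemma rot_iter {G : Type} [CommGroup G] (a y : G) (n : ℕ) : (fun y => a * y)^[n] y = a ^ n * y := by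
  induction n with
  | zero => simp
  | succ n ih => rw [Function.iterate_succ_apply', ih, pow_succ', mul_assoc]

/-- the companion map -/
def comp {F : Type} [Field F] (k : ℕ) (c : Fin (k + 1) → F) : (Fin (k + 1) → F) →ₗ[F] (Fin (k + 1) → F) where
  toFun w := fun i => if h : (i : ℕ) + 1 < k + 1 then w ⟨i + 1, h⟩ else ∑ j, c j * w j
  map_add' v w := by
    funext i
    simp only [Pi.add_apply]
    split_ifs with h
    · rfl
    · rw [← sum_add_distrib]
      exact sum_congr rfl fun j _ => by ring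
  map_smul' r v := by
    funext i
    simp only [Pi.smul_apply, smul_eq_mul, RingHom.id_apply]
    split_ifs with h
    · rfl
    · rw [mul_sum]
      exact sum_congr rfl fun j _ => by ring

theorem partC_of {E : Set ℕ} (h : PartB E) : PartC E := by
  intro G F _ _ _ _ _ _ _ _ k a c hc hc0 H hH hs 𝓑 h𝓑
  refine h G F k (fun y => a * y) Set.univ (fun y => comp k fun j => c j y) ?_ (ap_rot a)
    (continuous_const.mul continuous_id) ?_ H hH hs 𝓑 ?_
  · intro y v hv
    have h1 : ∀ i : Fin (k + 1), (if h : (i : ℕ) + 1 < k + 1 then v ⟨i + 1, h⟩ else ∑ j, c j y * v j) = 0 :=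
      fun i => congrFun hv i
    have h2 : ∀ j : Fin (k + 1), j ≠ 0 → v j = 0 := by
      intro j hj
      have hj1 : (j : ℕ) ≠ 0 := fun h => hj (Fin.ext h)
      have h3 := h1 ⟨(j : ℕ) - 1, by omega⟩
      have h4 : (j : ℕ) - 1 + 1 = j := by omega
      simp only [h4, j.2, dif_pos] at h3
      exact h3
    have h3 := h1 (Fin.last k)
    simp only [Fin.val_last, lt_irrefl, dif_neg, not_false_iff] at h3
    rw [sum_eq_single (0 : Fin (k + 1)) (fun j _ hj => by rw [h2 j hj, mul_zero])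
      (fun h => absurd (mem_univ _) h)] at h3
    funext j
    by_cases hj : j = 0
    · rw [hj]
      exact (mul_eq_zero.1 h3).resolve_left (hc0 y)
    · exact h2 j hj
  · refine continuous_pi fun i => ?_
    by_cases hi : (i : ℕ) + 1 < k + 1
    · have e : (fun p : G × (Fin (k + 1) → F) => (comp k fun j => c j p.1) p.2 i) = fun p => p.2 ⟨i + 1, hi⟩ := by
        funext p
        show (if h : (i : ℕ) + 1 < k + 1 then p.2 ⟨i + 1, h⟩ else ∑ j, c j p.1 * p.2 j) = _
        rw [dif_pos hi]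
      rw [e]
      exact (continuous_apply _).comp continuous_snd
    · have e : (fun p : G × (Fin (k + 1) → F) => (comp k fun j => c j p.1) p.2 i) = fun p => ∑ j, c j p.1 * p.2 j := by
        funext p
        show (if h : (i : ℕ) + 1 < k + 1 then p.2 ⟨i + 1, h⟩ else ∑ j, c j p.1 * p.2 j) = _
        rw [dif_neg hi]
      rw [e]
      exact continuous_finsetSum _ fun j _ => ((hc j).comp continuous_fst).mul
        ((continuous_apply j).comp continuous_snd)
  · intro b hb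
    obtain ⟨y, x, ⟨j, hj, hxj⟩, hx, hbn⟩ := h𝓑 b hb
    refine ⟨y, Set.mem_univ _, window (k + 1) x, ?_, fun n => ?_, fun n => ?_⟩
    · intro h0
      refine hxj ?_
      have h1 := congrFun h0 ⟨j, hj⟩
      have h2 : x (0 + j) = 0 := h1
      rwa [zero_add] at h2
    · rw [rot_iter]
      funext i
      show x (n + 1 + i) = if h : (i : ℕ) + 1 < k + 1 then x (n + ((i : ℕ) + 1)) else
        ∑ j : Fin (k + 1), c j (a ^ n * y) * x (n + j)
      split_ifs with h
      · congr 1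
        ring
      · have h1 : (i : ℕ) = k := by omega
        rw [← hx n, h1]
        congr 1
        ring
    · rw [rot_iter]
      exact hbn n

/-- the shift -/
def shift {K : Type} (k : ℕ → K) : ℕ → K := fun n => k (n + 1)

lemma shift_iter {K : Type} (k : ℕ → K) (n m : ℕ) : (shift^[n] k) m = k (n + m) := by
  induction n generalizing k m with
  | zero => simp
  | succ n ih =>
    rw [Function.iterate_succ_apply, ih]
    show k (n + m + 1) = k (n + 1 + m)
    congr 1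
    ring

lemma shift_cont {K : Type} [TopologicalSpace K] : Continuous (shift : (ℕ → K) → ℕ → K) :=
  continuous_pi fun n => continuous_apply (n + 1)

/-- most points of the base, for all invariant measures -/
def MostPoints {X Y : Type} [TopologicalSpace Y] (E : Set ℕ) (u : ℕ → ℤ) (S : Y → Y) (T : X → X) (π : X → Y)
    (F : X → ℂ) : Prop :=
  ∀ [MeasurableSpace Y] [BorelSpace Y], ∀ ε : ℝ, 0 < ε → ∃ N₀ : ℕ, ∀ N ≥ N₀, ∀ ρ : Measure Y,
    IsProbabilityMeasure ρ → MeasurePreserving S ρ ρ →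
    (N ∉ E → ρ {y | ∃ x, π x = y ∧ ∃ θ : ℝ, ε * N < ‖∑ n ∈ Icc 1 N, seq u θ T F x n‖} ≤ ENNReal.ofReal ε) ∧
    ρ {y | ∃ x, π x = y ∧ ∃ θ : ℝ, ε * Real.log N < ‖∑ n ∈ Icc 1 N, seq u θ T F x n / n‖} ≤ ENNReal.ofReal ε

theorem stat_of {K X : Type} [MetricSpace K] [CompactSpace K] [MeasurableSpace K] [BorelSpace K] {E : Set ℕ}
    {u : ℕ → ℤ} {T : X → X} {π : X → ℕ → K} {F : X → ℂ}
    (h : MostPoints E u shift T π F) {𝓑 : (ℕ → K) → Set (ℕ → ℂ)}
    (hb : ∀ k, ∀ b ∈ 𝓑 k, ∃ x, π x = k ∧ ∀ n, b n = F (T^[n] x)) : Stationary E u 𝓑 := by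
  intro ε hε
  obtain ⟨N₀, h1⟩ := h ε hε
  refine ⟨N₀, fun N hN Ω _ P σ g hP hσ hg => ?_⟩
  set η : Ω → ℕ → K := fun ω n => g (σ^[n] ω) with hη
  have hηm : Measurable η := measurable_pi_lambda _ fun n => hg.comp (hσ.measurable.iterate n)
  have hcomm : shift ∘ η = η ∘ σ := by
    funext ω n
    show g (σ^[n + 1] ω) = g (σ^[n] (σ ω))
    rw [Function.iterate_succ_apply]
  have hsm : Measurable (shift : (ℕ → K) → ℕ → K) := shift_cont.measurable
  have hinv : MeasurePreserving (shift : (ℕ → K) → ℕ → K) (P.map η) (P.map η) := by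
    refine ⟨hsm, ?_⟩
    rw [Measure.map_map hsm hηm, hcomm, ← Measure.map_map hηm hσ.measurable, hσ.map_eq]
  have hprob : IsProbabilityMeasure (P.map η) := Measure.isProbabilityMeasure_map hηm.aemeasurable
  obtain ⟨h2, h3⟩ := h1 N hN (P.map η) hprob hinv
  have key : ∀ (B : Set (ℕ → K)) (A : Set Ω), A ⊆ η ⁻¹' B → (P.map η) B ≤ ENNReal.ofReal ε →
      P A ≤ ENNReal.ofReal ε := fun B A hAB hB =>
    ((measure_mono hAB).trans (Measure.le_map_apply hηm.aemeasurable B)).trans hB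
  refine ⟨fun hNE => key _ _ ?_ (h2 hNE), key _ _ ?_ h3⟩
  · rintro ω ⟨b, hbω, θ, hθ⟩
    obtain ⟨x, hx, hxn⟩ := hb _ b hbω
    refine ⟨x, hx, θ, ?_⟩
    simp only [hxn] at hθ
    exact hθ
  · rintro ω ⟨b, hbω, θ, hθ⟩
    obtain ⟨x, hx, hxn⟩ := hb _ b hbω
    refine ⟨x, hx, θ, ?_⟩
    simp only [hxn] at hθ
    exact hθ

theorem partD_of {E : Set ℕ} (h : ArbitraryBase.PartB E) : PartD E := by
  intro K F _ _ _ _ _ _ _ k M hM hc H hH hs u hu
  let M' : (ℕ → K) → (Fin (k + 1) → F) →ₗ[F] (Fin (k + 1) → F) := fun g => M (g 0)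
  have hM' : ∀ g v, M' g v = 0 → v = 0 := fun g v => hM (g 0) v
  have hc' : Continuous (fun p : (ℕ → K) × (Fin (k + 1) → F) => M' p.1 p.2) := by
    have h0 : Continuous (fun p : (ℕ → K) × (Fin (k + 1) → F) => (p.1 0, p.2)) :=
      ((continuous_apply 0).comp continuous_fst).prodMk continuous_snd
    exact hc.comp h0
  have hH' : ContinuousOn (fun p : (ℕ → K) × (Fin (k + 1) → F) => H p.2) {p | p.2 ≠ 0} :=
    hH.comp continuous_snd.continuousOn fun p hp => hp
  obtain ⟨-, -, h1⟩ := h ((ℕ → K) × NF F k) (ℕ → K) shift Set.univ (proj shift M' hM') Prod.fst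
    (proj_cont shift_cont hM' hc') continuous_fst (fun x => rfl) (by
      intro A B hA hB hAB δ hδ
      obtain ⟨d, hd⟩ := proj_null (S := shift) hM' hA hB hAB
      exact ⟨d, Set.univ, isClosed_univ, Mostly_univ hδ.le, fun y _ m => hd y m⟩) (onNF _ hH')
  obtain ⟨h2, h3⟩ := h1 rfl
  have hb : ∀ g : ℕ → K, ∀ b ∈ {b : ℕ → ℂ | ∃ v : ℕ → Fin (k + 1) → F, v 0 ≠ 0 ∧
      (∀ n, v (n + 1) = M (g n) (v n)) ∧ ∀ n, b n = H (v n)}, ∃ x : (ℕ → K) × NF F k, x.1 = g ∧
        ∀ n, b n = onNF _ hH' ((proj shift M' hM')^[n] x) := by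
    rintro g b ⟨v, hv0, hv, hbn⟩
    have hv' : ∀ n, v (n + 1) = M' (shift^[n] g) (v n) := by
      intro n
      rw [hv n]
      show M (g n) (v n) = M ((shift^[n] g) 0) (v n)
      rw [shift_iter, add_zero]
    obtain ⟨hvn, hit⟩ := proj_iter hM' hv0 hv'
    refine ⟨(g, ⟨nf (v 0), nf_mem hv0⟩), rfl, fun n => ?_⟩
    rw [hit n, hbn n]
    exact (hs (v n) _ (inv_ne_zero (apply_amax_ne (hvn n)))).symm
  rcases hu with rfl | rfl
  · exact stat_of h2 hb
  · exact stat_of h3 hb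

/-- **Theorem.** There is one set `E` of logarithmic density zero such that (A), (B) and (C) hold, and one such that (D)
holds. -/
theorem result : (∃ E : Set ℕ, LogDensityZero E ∧ PartA E ∧ PartB E ∧ PartC E) ∧
    ∃ E : Set ℕ, LogDensityZero E ∧ PartD E := by
  obtain ⟨E, hE, -, hB, -, -⟩ := NullExtensions.result
  obtain ⟨E', hE', -, hB', -, -⟩ := ArbitraryBase.result
  have h1 := partB_of hB
  exact ⟨⟨E, hE, partA_of hB, h1, partC_of h1⟩, E', hE', partD_of hB'⟩

end Pool.Agent.Results.MP_3e612f_nt.NonArchimedeanCocycles
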