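import Pool.Agent.K3h58.LC.Seq
import Pool.Agent.K3h58.LC.Pol
import Pool.Agent.Results.MP_3e612f_nt.ArbitraryBase

/-!
# The Möbius function and stationary random products of matrices or of elements of hyperbolic groups (helper58)

Let `g_0, g_1, …` be a stationary sequence of random invertible linear maps of a finite-dimensional real space, from a
compact set, for example independent and identically distributed. With probability at least `1 - ε` ALL the sequences
of directions of the vectors `v_n = g_(n-1) ⋯ g_1 g_0 v` (`v ≠ 0`) are orthogonal to the Möbius function, up to `ε`, at the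
scale `N`, for all large `N` outside of a set of logarithmic density zero, and on logarithmic average for all large `N`;
how large depends only on `ε`, the compact set and the continuous function of the directions, but not on the law.
The same holds for stationary random products in a convergence group `G` and the orbits `g_(n-1) ⋯ g_1 g_0 z` of all
points `z` of the space `Z` on which `G` acts, for example for random walks on a hyperbolic group and its boundary.
More generally let `(Y, S)` be any topological system, which may have positive entropy, with a continuous linear cocycle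
or a continuous cocycle with values in a convergence group: then this holds for all points over most points of each orbit
of the base, and over all but a small proportion of the points of the base for each invariant measure.

Proof: the extension is null relative to its base (see `LinearCocycles` and `ConvergenceCocycles`), and the starting
result `ArbitraryBase` of helper296 applies; a stationary sequence is a factor map to a shift space.
-/

set_option autoImplicit false
set_option linter.unusedSectionVars false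

open Finset Filter Topology MeasureTheory

namespace Pool.Agent.Results.MP_3e612f_nt.RandomProducts

open Classical in
/-- `E` has logarithmic density zero -/
def LogDensityZero (E : Set ℕ) : Prop := Tendsto
  (fun X : ℕ => (∑ n ∈ Icc 1 X, if n ∈ E then (1 : ℝ) / n else 0) / Real.log X) atTop (𝓝 0)

/-- `e(x) = exp(2 π i x)` -/
noncomputable def e (x : ℝ) : ℂ := Complex.exp (2 * Real.pi * x * Complex.I)

/-- the Möbius function -/
def mu (n : ℕ) : ℤ := ArithmeticFunction.moebius n

/-- the Liouville function -/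
def lam (n : ℕ) : ℤ := (-1) ^ ArithmeticFunction.cardFactors n

/-- the sequence `u(n) e(θ n) F(Tⁿ x)` -/
noncomputable def seq {X : Type} (u : ℕ → ℤ) (θ : ℝ) (T : X → X) (F : X → ℂ) (x : X) (n : ℕ) : ℂ :=
  (u n : ℂ) * e (θ * n) * F (T^[n] x)

/-- Over most points of each orbit of the base which starts in `P`, the function `F` is disjoint from `u`, uniformly
over all points of the fibres and all twists `θ`: for all large `N`, all `M ≥ N` and all `y` in `P` there is a set `V` of
at most `ε M` integers such that for all `l < M` outside of `V`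
(1) if `N ∉ E`, then `|(1/N) ∑_{n ≤ N} u(n) e(θ n) F(Tⁿ x)| ≤ ε` for all `x` over `S^l y`;
(2) `|∑_{n ≤ N} u(n) e(θ n) F(Tⁿ x) / n| ≤ ε log N` for all `x` over `S^l y`.
(3) is (1) for short intervals `[n, n + H)`, on average over `n < N`, where for each interval the point may be replaced
by another point `x_n` of the fibre over `S^(n + l) y`. -/
def MostShifts {X Y : Type} (E : Set ℕ) (u : ℕ → ℤ) (S : Y → Y) (P : Set Y) (T : X → X) (π : X → Y) (F : X → ℂ) :
    Prop :=
  ∀ ε : ℝ, 0 < ε →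
    (∃ N₀ : ℕ, ∀ N ≥ N₀, N ∉ E → ∀ M ≥ N, ∀ y ∈ P, ∃ V : Finset ℕ, (V.card : ℝ) ≤ ε * M ∧ ∀ l < M, l ∉ V →
      ∀ x, π x = S^[l] y → ∀ θ : ℝ, ‖∑ n ∈ Icc 1 N, seq u θ T F x n‖ ≤ ε * N) ∧
    (∃ N₀ : ℕ, ∀ N ≥ N₀, ∀ M ≥ N, ∀ y ∈ P, ∃ V : Finset ℕ, (V.card : ℝ) ≤ ε * M ∧ ∀ l < M, l ∉ V →
      ∀ x, π x = S^[l] y → ∀ θ : ℝ, ‖∑ n ∈ Icc 1 N, seq u θ T F x n / n‖ ≤ ε * Real.log N) ∧
    ∃ H₀ : ℕ, ∀ H ≥ H₀, ∃ N₀ : ℕ, ∀ N ≥ N₀, N ∉ E → ∀ M ≥ N, ∀ y ∈ P, ∃ V : Finset ℕ, (V.card : ℝ) ≤ ε * M ∧
      ∀ l < M, l ∉ V → ∀ x : ℕ → X, (∀ n, π (x n) = S^[n] (S^[l] y)) → ∀ θ : ℝ,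
      ∑ n ∈ range N, ‖∑ m ∈ range H, (u (n + m) : ℂ) * e (θ * (n + m : ℕ)) * F (T^[m] (x n))‖ ≤ ε * (H * N)

/-- The same for the invariant probability measures `ρ` of the base: for all large `N`, uniformly in `ρ`, all points over
all points of the base outside of a set of (outer) measure at most `ε` satisfy (1) and (2). -/
def MostPoints {X Y : Type} [TopologicalSpace Y] (E : Set ℕ) (u : ℕ → ℤ) (S : Y → Y) (T : X → X) (π : X → Y)
    (F : X → ℂ) : Prop :=
  ∀ [MeasurableSpace Y] [BorelSpace Y], ∀ ε : ℝ, 0 < ε → ∃ N₀ : ℕ, ∀ N ≥ N₀, ∀ ρ : Measure Y,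
    IsProbabilityMeasure ρ → MeasurePreserving S ρ ρ →
    (N ∉ E → ρ {y | ∃ x, π x = y ∧ ∃ θ : ℝ, ε * N < ‖∑ n ∈ Icc 1 N, seq u θ T F x n‖} ≤ ENNReal.ofReal ε) ∧
    ρ {y | ∃ x, π x = y ∧ ∃ θ : ℝ, ε * Real.log N < ‖∑ n ∈ Icc 1 N, seq u θ T F x n / n‖} ≤ ENNReal.ofReal ε

/-- all conclusions -/
def Conclusion {X Y : Type} [TopologicalSpace Y] (E : Set ℕ) (S : Y → Y) (P : Set Y) (T : X → X) (π : X → Y)
    (F : X → ℂ) : Prop :=
  MostShifts E mu S P T π F ∧ MostShifts E lam S P T π F ∧
    (P = Set.univ → MostPoints E mu S T π F ∧ MostPoints E lam S T π F)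

/-- the direction of the image of a unit vector under an injective linear map -/
noncomputable def dir {V : Type} [NormedAddCommGroup V] [InnerProductSpace ℝ V] (M : V →ₗ[ℝ] V)
    (hM : ∀ v, M v = 0 → v = 0) (v : Metric.sphere (0 : V) 1) : Metric.sphere (0 : V) 1 :=
  ⟨‖M v‖⁻¹ • M v, by
    have h1 : ‖M v‖ ≠ 0 := by
      rw [norm_ne_zero_iff]
      intro h
      have h2 := norm_eq_of_mem_sphere v
      rw [hM v h, norm_zero] at h2
      exact zero_ne_one h2
    rw [mem_sphere_zero_iff_norm, norm_smul, norm_inv, norm_norm, inv_mul_cancel₀ h1]⟩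

/-- the linear cocycle `T(y, v) = (S y, M(y) v / |M(y) v|)` on `Y` times the unit sphere -/
noncomputable def cocycle {Y V : Type} [NormedAddCommGroup V] [InnerProductSpace ℝ V] (S : Y → Y)
    (M : Y → V →ₗ[ℝ] V) (hM : ∀ y v, M y v = 0 → v = 0) (x : Y × Metric.sphere (0 : V) 1) :
    Y × Metric.sphere (0 : V) 1 := (S x.1, dir (M x.1) (hM x.1) x.2)

/-- The action of `G` on the compact metric space `Z` is a convergence action: outside of a compact subset of `G`, each
element maps the complement of some ball of radius `ε` into a ball of radius `ε`. -/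
def Convergence (G Z : Type) [TopologicalSpace G] [SMul G Z] [MetricSpace Z] : Prop :=
  ∀ ε : ℝ, 0 < ε → ∃ K : Set G, IsCompact K ∧ ∀ g ∉ K, ∃ a r : Z, ∀ z, ε ≤ dist z r → dist (g • z) a < ε

/-- the skew product `T(y, z) = (S y, φ(y) z)` -/
def ext {Y G Z : Type} [SMul G Z] (S : Y → Y) (φ : Y → G) (x : Y × Z) : Y × Z := (S x.1, φ x.1 • x.2)

/-- (A) arbitrary base, linear cocycles -/
def PartA (E : Set ℕ) : Prop :=
  ∀ (Y V : Type) [TopologicalSpace Y] [CompactSpace Y] [T2Space Y]
    [NormedAddCommGroup V] [InnerProductSpace ℝ V] [FiniteDimensional ℝ V]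
    (S : Y → Y) (M : Y → V →ₗ[ℝ] V) (hM : ∀ y v, M y v = 0 → v = 0), Continuous S →
    Continuous (fun p : Y × V => M p.1 p.2) →
    ∀ F : C(Y × Metric.sphere (0 : V) 1, ℂ), Conclusion E S Set.univ (cocycle S M hM) Prod.fst F

/-- (B) arbitrary base, cocycles of convergence groups -/
def PartB (E : Set ℕ) : Prop :=
  ∀ (Y G Z : Type) [TopologicalSpace Y] [CompactSpace Y] [T2Space Y] [MetricSpace Z] [CompactSpace Z] [Group G]
    [TopologicalSpace G] [MulAction G Z] [ContinuousSMul G Z] (S : Y → Y) (φ : Y → G),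
    Convergence G Z → Continuous S → Continuous φ → ∀ F : C(Y × Z, ℂ), Conclusion E S Set.univ (ext S φ) Prod.fst F

/-- For all large `N`, uniformly in the probability space `Ω`, the measure preserving map `σ` and the random variable
`g` with values in `K`, all the sequences `b` of the family `𝓑(g(ω), g(σ ω), g(σ² ω), …)` satisfy, with probability at least
`1 - ε`: `|∑_{n ≤ N} u(n) e(θ n) b(n)| ≤ ε N` for all `θ`, if `N ∉ E`; and
`|∑_{n ≤ N} u(n) e(θ n) b(n) / n| ≤ ε log N` for all `θ`. -/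
def Stationary {K : Type} [MeasurableSpace K] (E : Set ℕ) (u : ℕ → ℤ) (𝓑 : (ℕ → K) → Set (ℕ → ℂ)) : Prop :=
  ∀ ε : ℝ, 0 < ε → ∃ N₀ : ℕ, ∀ N ≥ N₀, ∀ (Ω : Type) [MeasurableSpace Ω] (P : Measure Ω) (σ : Ω → Ω) (g : Ω → K),
    IsProbabilityMeasure P → MeasurePreserving σ P P → Measurable g →
    (N ∉ E → P {ω | ∃ b ∈ 𝓑 fun n => g (σ^[n] ω), ∃ θ : ℝ,
      ε * N < ‖∑ n ∈ Icc 1 N, (u n : ℂ) * e (θ * n) * b n‖} ≤ ENNReal.ofReal ε) ∧
    P {ω | ∃ b ∈ 𝓑 fun n => g (σ^[n] ω), ∃ θ : ℝ,
      ε * Real.log N < ‖∑ n ∈ Icc 1 N, (u n : ℂ) * e (θ * n) * b n / n‖} ≤ ENNReal.ofReal ε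

/-- (C) Stationary products of random injective linear maps from a compact metric space `K` of such maps: the functions of
the directions of the vectors `v_n = g_(n-1) ⋯ g_1 g_0 v_0`, for all `v_0 ≠ 0`. -/
def PartC (E : Set ℕ) : Prop :=
  ∀ (K V : Type) [MetricSpace K] [CompactSpace K] [MeasurableSpace K] [BorelSpace K]
    [NormedAddCommGroup V] [InnerProductSpace ℝ V] [FiniteDimensional ℝ V] (M : K → V →ₗ[ℝ] V),
    (∀ k v, M k v = 0 → v = 0) → Continuous (fun p : K × V => M p.1 p.2) → ∀ F : V → ℂ, Continuous F →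
    ∀ u : ℕ → ℤ, (u = mu ∨ u = lam) → Stationary E u fun k : ℕ → K => {b | ∃ v : ℕ → V, v 0 ≠ 0 ∧
      (∀ n, v (n + 1) = M (k n) (v n)) ∧ ∀ n, b n = F (‖v n‖⁻¹ • v n)}

/-- (D) Stationary products of random elements of a compact subset of a convergence group `G` (given by a continuous map
`φ : K → G`): the functions of the points `g_(n-1) ⋯ g_1 g_0 z`, for all points `z`. -/
def PartD (E : Set ℕ) : Prop :=
  ∀ (K G Z : Type) [MetricSpace K] [CompactSpace K] [MeasurableSpace K] [BorelSpace K] [MetricSpace Z] [CompactSpace Z]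
    [Group G] [TopologicalSpace G] [MulAction G Z] [ContinuousSMul G Z] (φ : K → G),
    Convergence G Z → Continuous φ → ∀ F : C(Z, ℂ),
    ∀ u : ℕ → ℤ, (u = mu ∨ u = lam) → Stationary E u fun k : ℕ → K => {b | ∃ z : ℕ → Z,
      (∀ n, z (n + 1) = φ (k n) • z n) ∧ ∀ n, b n = F (z n)}

open Pool.Agent.R296.RE Pool.Agent.R296.VC

section

variable {Y V : Type} [TopologicalSpace Y] [NormedAddCommGroup V] [InnerProductSpace ℝ V]

lemma sphere_ne (v : Metric.sphere (0 : V) 1) : (v : V) ≠ 0 := by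
  intro h
  have h2 := norm_eq_of_mem_sphere v
  rw [h, norm_zero] at h2
  exact zero_ne_one h2

theorem cocycle_cont {S : Y → Y} (hS : Continuous S) {M : Y → V →ₗ[ℝ] V} (hM : ∀ y v, M y v = 0 → v = 0)
    (hc : Continuous (fun p : Y × V => M p.1 p.2)) : Continuous (cocycle S M hM) := by
  refine (hS.comp continuous_fst).prodMk ?_
  have h1 : Continuous fun x : Y × Metric.sphere (0 : V) 1 => M x.1 x.2 :=
    hc.comp (continuous_fst.prodMk (continuous_subtype_val.comp continuous_snd))
  have h2 : ∀ x : Y × Metric.sphere (0 : V) 1, ‖M x.1 x.2‖ ≠ 0 := fun x => by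
    rw [norm_ne_zero_iff]
    exact fun h => sphere_ne x.2 (hM _ _ h)
  exact ((h1.norm.inv₀ h2).smul h1).subtype_mk _

end

theorem partA_of {E : Set ℕ} (h : ArbitraryBase.PartB E) : PartA E := by
  intro Y V _ _ _ _ _ _ S M hM hS hc F
  refine h (Y × Metric.sphere (0 : V) 1) Y S Set.univ (cocycle S M hM) Prod.fst (cocycle_cont hS hM hc)
    continuous_fst (fun x => rfl) ?_ F
  intro A B hA hB hAB δ hδ
  obtain ⟨d, hd⟩ := Pool.Agent.K3h58.LC.null_lin (X := Y × Metric.sphere (0 : V) 1) (S := S) (T := cocycle S M hM)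
    (π := Prod.fst) continuous_fst (fun x => rfl) (Φ := fun x => (x.2 : V))
    (continuous_subtype_val.comp continuous_snd) (fun x => sphere_ne x.2) (M := M)
    (fun x => ⟨‖M x.1 x.2‖⁻¹, by
      rw [inv_pos, norm_pos_iff]
      exact fun h => sphere_ne x.2 (hM _ _ h), rfl⟩) (by
      rintro ⟨y, v⟩ ⟨y', v'⟩ h1 ⟨r, hr, h2⟩
      have h3 : y = y' := h1
      have h4 : (v' : V) = r • (v : V) := h2
      have h5 := norm_eq_of_mem_sphere v'
      rw [h4, norm_smul, norm_eq_of_mem_sphere v, mul_one, Real.norm_of_nonneg hr.le] at h5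
      rw [h5, one_smul] at h4
      rw [h3, Subtype.ext h4]) hA hB hAB
  exact ⟨d, Set.univ, isClosed_univ, Mostly_univ hδ.le, fun y _ m => hd y m⟩

theorem partB_of {E : Set ℕ} (h : ArbitraryBase.PartB E) : PartB E := by
  intro Y G Z _ _ _ _ _ _ _ _ _ S φ hG hS hφ F
  have hcont : Continuous (ext (Z := Z) S φ) :=
    (hS.comp continuous_fst).prodMk ((hφ.comp continuous_fst).smul continuous_snd)
  refine h (Y × Z) Y S Set.univ (ext S φ) Prod.fst hcont continuous_fst (fun x => rfl) ?_ F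
  intro A B hA hB hAB δ hδ
  obtain ⟨d, hd⟩ := Pool.Agent.K3h58.LC.null_conv hG S φ hA hB hAB
  exact ⟨d, Set.univ, isClosed_univ, Mostly_univ hδ.le, fun y _ m => hd y m⟩

/-- the shift -/
def shift {K : Type} (k : ℕ → K) : ℕ → K := fun n => k (n + 1)

lemma shift_iter {K : Type} (k : ℕ → K) (n m : ℕ) : (shift^[n] k) m = k (n + m) := by
  induction n generalizing k m with
  | zero => simp
  | succ n ih =>
    rw [Function.iterate_succ_apply, ih]
    show k (n + m + 1) = k (n + 1 + m)
    congr 1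
    ring

lemma shift_cont {K : Type} [TopologicalSpace K] : Continuous (shift : (ℕ → K) → ℕ → K) :=
  continuous_pi fun n => continuous_apply (n + 1)

theorem stat_of {K X : Type} [MetricSpace K] [CompactSpace K] [MeasurableSpace K] [BorelSpace K] {E : Set ℕ}
    {u : ℕ → ℤ} {T : X → X} {π : X → ℕ → K} {F : X → ℂ}
    (h : MostPoints E u shift T π F) {𝓑 : (ℕ → K) → Set (ℕ → ℂ)}
    (hb : ∀ k, ∀ b ∈ 𝓑 k, ∃ x, π x = k ∧ ∀ n, b n = F (T^[n] x)) : Stationary E u 𝓑 := by
  intro ε hε
  obtain ⟨N₀, h1⟩ := h ε hε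
  refine ⟨N₀, fun N hN Ω _ P σ g hP hσ hg => ?_⟩
  set η : Ω → ℕ → K := fun ω n => g (σ^[n] ω) with hη
  have hηm : Measurable η := measurable_pi_lambda _ fun n => hg.comp (hσ.measurable.iterate n)
  have hcomm : shift ∘ η = η ∘ σ := by
    funext ω n
    show g (σ^[n + 1] ω) = g (σ^[n] (σ ω))
    rw [Function.iterate_succ_apply]
  have hsm : Measurable (shift : (ℕ → K) → ℕ → K) := shift_cont.measurable
  have hinv : MeasurePreserving (shift : (ℕ → K) → ℕ → K) (P.map η) (P.map η) := by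
    refine ⟨hsm, ?_⟩
    rw [Measure.map_map hsm hηm, hcomm, ← Measure.map_map hηm hσ.measurable, hσ.map_eq]
  have hprob : IsProbabilityMeasure (P.map η) := Measure.isProbabilityMeasure_map hηm.aemeasurable
  obtain ⟨h2, h3⟩ := h1 N hN (P.map η) hprob hinv
  have key : ∀ (B : Set (ℕ → K)) (A : Set Ω), A ⊆ η ⁻¹' B → (P.map η) B ≤ ENNReal.ofReal ε →
      P A ≤ ENNReal.ofReal ε := fun B A hAB hB =>
    ((measure_mono hAB).trans (Measure.le_map_apply hηm.aemeasurable B)).trans hB
  refine ⟨fun hNE => key _ _ ?_ (h2 hNE), key _ _ ?_ h3⟩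
  · rintro ω ⟨b, hbω, θ, hθ⟩
    obtain ⟨x, hx, hxn⟩ := hb _ b hbω
    refine ⟨x, hx, θ, ?_⟩
    simp only [hxn] at hθ
    exact hθ
  · rintro ω ⟨b, hbω, θ, hθ⟩
    obtain ⟨x, hx, hxn⟩ := hb _ b hbω
    refine ⟨x, hx, θ, ?_⟩
    simp only [hxn] at hθ
    exact hθ

theorem partC_of {E : Set ℕ} (h : PartA E) : PartC E := by
  intro K V _ _ _ _ _ _ _ M hM hc F hF u hu
  let M' : (ℕ → K) → V →ₗ[ℝ] V := fun k => M (k 0)
  have hM' : ∀ k v, M' k v = 0 → v = 0 := fun k v => hM (k 0) v
  have hc' : Continuous (fun p : (ℕ → K) × V => M' p.1 p.2) := by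
    have h0 : Continuous (fun p : (ℕ → K) × V => (p.1 0, p.2)) :=
      ((continuous_apply 0).comp continuous_fst).prodMk continuous_snd
    exact hc.comp h0
  let F' : C((ℕ → K) × Metric.sphere (0 : V) 1, ℂ) := ⟨fun x => F x.2, hF.comp
    (continuous_subtype_val.comp continuous_snd)⟩
  obtain ⟨-, -, h1⟩ := h (ℕ → K) V shift M' hM' shift_cont hc' F'
  obtain ⟨h2, h3⟩ := h1 rfl
  have hb : ∀ k : ℕ → K, ∀ b ∈ {b : ℕ → ℂ | ∃ v : ℕ → V, v 0 ≠ 0 ∧ (∀ n, v (n + 1) = M (k n) (v n)) ∧
      ∀ n, b n = F (‖v n‖⁻¹ • v n)}, ∃ x : (ℕ → K) × Metric.sphere (0 : V) 1, x.1 = k ∧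
        ∀ n, b n = F' ((cocycle shift M' hM')^[n] x) := by
    rintro k b ⟨v, hv0, hv, hbn⟩
    have hvn : ∀ n, v n ≠ 0 := by
      intro n
      induction n with
      | zero => exact hv0
      | succ n ih =>
        rw [hv]
        exact fun h => ih (hM _ _ h)
    have hsph : ∀ n, ‖v n‖⁻¹ • v n ∈ Metric.sphere (0 : V) 1 := fun n => by
      rw [mem_sphere_zero_iff_norm, norm_smul, norm_inv, norm_norm, inv_mul_cancel₀ (norm_ne_zero_iff.2 (hvn n))]
    refine ⟨(k, ⟨_, hsph 0⟩), rfl, fun n => ?_⟩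
    have key : ∀ n, (cocycle shift M' hM')^[n] (k, ⟨_, hsph 0⟩) = (shift^[n] k, ⟨_, hsph n⟩) := by
      intro n
      induction n with
      | zero => simp
      | succ n ih =>
        rw [Function.iterate_succ_apply', ih, Function.iterate_succ_apply']
        unfold cocycle dir
        simp only [Prod.mk.injEq, Subtype.mk.injEq, true_and]
        have hk : M' (shift^[n] k) = M (k n) := by
          show M ((shift^[n] k) 0) = M (k n)
          rw [shift_iter, add_zero]
        rw [hk, map_smul, ← hv n, norm_smul, norm_inv, norm_norm, smul_smul, mul_inv, inv_inv, mul_comm ‖v n‖,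
          mul_assoc, mul_inv_cancel₀ (norm_ne_zero_iff.2 (hvn n)), mul_one]
    rw [key n, hbn n]
    rfl
  rcases hu with rfl | rfl
  · exact stat_of h2 hb
  · exact stat_of h3 hb

theorem partD_of {E : Set ℕ} (h : PartB E) : PartD E := by
  intro K G Z _ _ _ _ _ _ _ _ _ _ φ hG hφ F u hu
  let φ' : (ℕ → K) → G := fun k => φ (k 0)
  have hφ' : Continuous φ' := hφ.comp (continuous_apply 0)
  let F' : C((ℕ → K) × Z, ℂ) := ⟨fun x => F x.2, F.continuous.comp continuous_snd⟩
  obtain ⟨-, -, h1⟩ := h (ℕ → K) G Z shift φ' hG shift_cont hφ' F'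
  obtain ⟨h2, h3⟩ := h1 rfl
  have hb : ∀ k : ℕ → K, ∀ b ∈ {b : ℕ → ℂ | ∃ z : ℕ → Z, (∀ n, z (n + 1) = φ (k n) • z n) ∧ ∀ n, b n = F (z n)},
      ∃ x : (ℕ → K) × Z, x.1 = k ∧ ∀ n, b n = F' ((ext shift φ')^[n] x) := by
    rintro k b ⟨z, hz, hbn⟩
    refine ⟨(k, z 0), rfl, fun n => ?_⟩
    have key : ∀ n, (ext shift φ')^[n] (k, z 0) = (shift^[n] k, z n) := by
      intro n
      induction n with
      | zero => simp
      | succ n ih =>
        rw [Function.iterate_succ_apply', ih, Function.iterate_succ_apply']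
        unfold ext
        simp only [Prod.mk.injEq, true_and]
        have hk : φ' (shift^[n] k) = φ (k n) := by
          show φ ((shift^[n] k) 0) = φ (k n)
          rw [shift_iter, add_zero]
        rw [hk, hz n]
    rw [key n, hbn n]
    rfl
  rcases hu with rfl | rfl
  · exact stat_of h2 hb
  · exact stat_of h3 hb

/-- **Theorem.** There is one set `E` of logarithmic density zero such that (A), (B), (C) and (D) hold. -/
theorem result : ∃ E : Set ℕ, LogDensityZero E ∧ PartA E ∧ PartB E ∧ PartC E ∧ PartD E := by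
  obtain ⟨E, hE, -, hB, -, -⟩ := ArbitraryBase.result
  have h1 := partA_of hB
  have h2 := partB_of hB
  exact ⟨E, hE, h1, h2, partC_of h1, partD_of h2⟩

end Pool.Agent.Results.MP_3e612f_nt.RandomProducts
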